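import Mathlib
import Pool.Agent.Helper427.WRTDefs
import Pool.Agent.Helper427.Final1

set_option autoImplicit false

open WRT

namespace Pool.Agent.Results.MP_fcdc94_gt.LensTwentyFive

/-- Surgery along the chains with framings [13, 2] and [0] gives the lens space M = L(25,2) and
S^1 x S^2. For G = SU(2) and M, no data d_j, I_j, v_j, a_{j,e} give the asymptotic expansion of
Z_k(M) = tau_r(M) / tau_r(S^1 x S^2), whatever the finite set c_0 = 0, c_1, ..., c_m of phases that are
pairwise different modulo 1 (so in particular not for the set of Chern-Simons values of M). -/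
theorem result :
    chainFraction [13, 2] = (25, 2) ∧ chainFraction [0] = (0, 1) ∧
    ∀ (m : ℕ) (c : Fin (m + 1) → ℝ), c 0 = 0 → (∀ i j, i ≠ j → ∀ n : ℤ, c i - c j ≠ n) →
      ¬ HasExpansion (fun r => tau 2 r [13, 2] / tau 2 r [0]) m c :=
  ⟨by decide, by decide, fun m c h0 hc => SU2.no_expansion m c h0 hc⟩

end Pool.Agent.Results.MP_fcdc94_gt.LensTwentyFive
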