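import Mathlib
import Pool.Agent.Helper427.WRTDefs
import Pool.Agent.Helper427.CircleDefs
import Pool.Agent.Helper427.Final2

set_option autoImplicit false

open WRT

namespace Pool.Agent.Results.MP_fcdc94_gt.Nilmanifold

/-- Let M be the circle bundle with Euler number 1 over the torus (the mapping torus of a Dehn twist of
the torus, a nilmanifold) and G = SU(2). Whatever the finite set c_0 = 0, c_1, ..., c_m of phases that are
pairwise different modulo 1 (in particular for the set of Chern-Simons values of M), Z_k(M) has no
expansion as conjectured, not even if the leading coefficients v_j exp (2 π i I_j / 8) may be arbitrary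
complex numbers, zero included. -/
theorem result :
    ∀ (m : ℕ) (c : Fin (m + 1) → ℝ), c 0 = 0 → (∀ i j, i ≠ j → ∀ n : ℤ, c i - c j ≠ n) →
      ¬ HasWeakExpansion (fun r => circleBundle 2 r 1 1) m c ∧
      ¬ HasExpansion (fun r => circleBundle 2 r 1 1) m c :=
  fun m c h0 hc => ⟨SU2.no_weak_expansion m c h0 hc,
    fun h => SU2.no_weak_expansion m c h0 hc (AE.weak_of_has h)⟩

end Pool.Agent.Results.MP_fcdc94_gt.Nilmanifold
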